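import Pool.Agent.N145.SX.MOne
import Pool.Agent.N145.SX.MFin

/-!
# Nonvanishing with one form for log pairs dominated by a product of open varieties

Let `X° i`, `i < k`, be smooth varieties over `ℂ` of dimension `m i`, and `U = C ∖ B` a smooth curve,
open or projective and of any genus (`B` is finite and may be empty). Let
`V° = X° 0 × ... × X° (k - 1) × U ⇢ W°` be a dominant rational map of finite degree to a variety `W°`
which is proper in the sense that a prime divisor over `V°` (on any compactification of any
birational model) has a centre on `V°` if and only if its image has a centre on `W°`; for example any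
finite morphism onto a normal variety `W°`. The map need not be related to the product structure, and
it need not be the quotient by a group. Let `W_i` be the image of `V` in `W × X 0 × ... × X (i - 1)`,
and let `d i` be the degree over `W_i` of the image of `V` in `W_i × X i`; for example `W_0 = W`, and
`d 0` is the number of different points of `X 0` below a general fibre of `V° ⇢ W°`. The product of
the `d i` is at most the degree of `V° ⇢ W°`.

Suppose that for all `i` the logarithmic canonical forms of `X° i` separate any `d i` different points
of a nonempty open subset of `X° i`: such points impose independent conditions on `H⁰(K + D)` of a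
smooth compactification with the boundary `D`. For example:

* `X° i` is the complement of a divisor with normal crossings of degree `e` in a smooth hypersurface of
  degree `c` in projective space, `c + e ≥ m i + 1 + d i` (also `c = 1` or `e = 0`);
* `X° i` is a curve of logarithmic gonality greater than `d i`.

The theorem: the following are equivalent: `W°` has no logarithmic canonical form; it has no
logarithmic pluricanonical form; its log canonical divisor is not pseudo-effective; it is
`A¹`-uniruled.

The number `d` is optimal: if `W = (X × C) / G` is a bielliptic surface with a group of order two, and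
`X` is the elliptic curve on which `G` acts by translations, then `d = 2`, the canonical form of `X`
separates one point, the geometric genus of `W` is zero and `κ(W) = 0`.

There is no condition on the irregularity. Let `(Y, D)` be a log canonical pair with `D` reduced such
that `Y ∖ D` has canonical singularities (for example, is smooth) and is such a `W°`, or properly
birational to it. If `K_Y + D` is pseudo-effective then so is `K_Z + D_Z` on a log resolution, which is
the pullback of `K_Y + D` plus an effective divisor (all prime divisors over `D` are in `D_Z`). So the
third condition is not satisfied, and the canonical form on `Z` gives a section of `K_Y + D` itself: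
`h⁰(Y, K_Y + D) > 0`.

Proof. Let `f i` be logarithmic canonical forms of the `X° i` and `φ` a differential on `C` with at
most simple poles on `B`. The product of their pullbacks is a logarithmic canonical form of `V°`, and
its trace on `W°` is a logarithmic canonical form. If `W°` has no such forms, then all these traces
are zero. This is a relation between the points of `V` below a generic point `P` of `W` which is
multilinear in the values of the `f i`. At most `d i` points of `X i` occur if the first `i`
coordinates are fixed, and they are separated, so we can fix the coordinates one after the other. It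
follows that all `φ` have trace zero on the image `R_x` of `{x} × U` in `W × X 0 × ... × X (k - 1)`,
for generic `x`. By base change all logarithmic differentials of the geometric generic fibre have
trace zero. So `R_x` is rational, and has at most one point below the boundary: otherwise the pullback
of a differential of the third kind with poles at two of these points would be a logarithmic
differential with nonzero trace. Hence `W°` is covered by images of the affine line, and its log
canonical divisor is not pseudo-effective.

The parts of the Lean proof on pull-backs, products and the geometric generic fibre are due to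
helpers 123, 221, 442, 160, 279, 603, 342, 75 and 78.
-/

set_option autoImplicit false
set_option linter.overlappingInstances false
set_option maxHeartbeats 4000000
set_option synthInstance.maxHeartbeats 400000

open FF Module Pool.Agent Pool.Agent.W602.GT
open Pool.Agent.W619.PL (IsA1Uniruled)
open Pool.Agent.R882.LT (LogGenusZero)

namespace Pool.Agent.Results.MP_66b48b_ag.OpenProductsGenusZero

/-- **The logarithmic canonical forms separate `r` points.** `E` is the function field of a
variety `X°` of dimension `m`, `BX` is the set of places of `E` without centre on `X°`, and `D` is a
rational frame of the tangent bundle. The embeddings `σ : E → Ω` are the generic points of `X` with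
coordinates in the field `Ω`. At most `r` different such points impose independent conditions on the
logarithmic canonical forms `ω` (`LogSec` with exponent one): if `∑ c σ * σ (ω D) = 0` for all `ω`
then all the coefficients `c σ` are zero. -/
def SeparatesPoints (E : Type) [Field E] [Algebra ℂ E] (m : ℕ) (BX : Place ℂ E → Prop) (r : ℕ) :
    Prop :=
  ∀ D : Fin m → Derivation ℂ E E, LinearIndependent E D →
    ∀ (Ω : Type) [Field Ω] [Algebra ℂ Ω] [IsAlgClosed Ω] (A : Finset (E →ₐ[ℂ] Ω)), A.card ≤ r →
    ∀ c : (E →ₐ[ℂ] Ω) → Ω,
    (∀ ω : (Fin m → Derivation ℂ E E) → E, LogSec ℂ E m 1 BX ω →
      ∑ σ ∈ A, c σ * σ (ω D) = 0) → ∀ σ ∈ A, c σ = 0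

variable {K : Type} [Field K] [Algebra ℂ K] {k : ℕ}

/-- The function field of the image `W_i` of `V` in the product of `W` and the first `i` factors.
Here `K` and `L` are the function fields of `V` and `W`, and `F l` is the one of the `l`-th
factor. -/
noncomputable def Img (F : Fin (k + 1) → IntermediateField ℂ K) (L : Type) [Field L] [Algebra L K]
    (i : ℕ) : IntermediateField L K :=
  IntermediateField.adjoin L {z | ∃ l : Fin (k + 1), l.val < i ∧ z ∈ F l}

/-- The degree over `W_i` of the image of `V` in the product of `W_i` and the `i`-th factor. -/
noncomputable def deg (F : Fin (k + 1) → IntermediateField ℂ K) (L : Type) [Field L] [Algebra L K]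
    (i : Fin (k + 1)) : ℕ :=
  finrank (Img F L i) (IntermediateField.adjoin (Img F L i) (F i : Set K))

theorem deg_eq (F : Fin (k + 1) → IntermediateField ℂ K) (L : Type) [Field L] [Algebra ℂ L]
    [Algebra L K] [IsScalarTower ℂ L K] [FiniteDimensional L K] (i : Fin (k + 1)) :
    deg F L i = finrank (N145.PC.MF F L (N145.PC.Js (k + 1) i))
      (IntermediateField.adjoin (N145.PC.MF F L (N145.PC.Js (k + 1) i)) (F i : Set K)) := by
  unfold deg Img
  rw [N145.SX.mf_eq]

/-- The place `Q` of the function field `K` of the product lies over a place of `F i`, `i < k`,
without centre on `X° i`, or over a point in `B`: it has no centre on the product of the `X° i` and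
`U`. -/
def Boundary {F : Fin (k + 1) → IntermediateField ℂ K}
    (BX : ∀ i : Fin k, Place ℂ (F i.castSucc) → Prop) (B : Set (Place ℂ (F (Fin.last k))))
    (Q : Place ℂ K) : Prop :=
  (∃ (i : Fin k) (P : Place ℂ (F i.castSucc)) (e : ℕ), BX i P ∧ 0 < e ∧
    ∀ f : F i.castSucc, Q.ord (f : K) = e * P.ord f) ∨
  ∃ p ∈ B, ∃ e : ℕ, 0 < e ∧ ∀ f : F (Fin.last k), Q.ord (f : K) = e * p.ord f

/-- The set `BW` of places of the function field `L` of `W` is the boundary of the image of the
product: for all places `Q` of `K` over a place `P` of `L`, `P` is in `BW` if and only if `Q` has no
centre on the product of the `X° i` and `U`. -/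
def IsImageBoundary {F : Fin (k + 1) → IntermediateField ℂ K}
    (BX : ∀ i : Fin k, Place ℂ (F i.castSucc) → Prop) (B : Set (Place ℂ (F (Fin.last k))))
    (L : Type) [Field L] [Algebra ℂ L] [Algebra L K] (BW : Place ℂ L → Prop) : Prop :=
  ∀ (P : Place ℂ L) (Q : Place ℂ K) (e : ℕ), 0 < e →
    (∀ f : L, Q.ord (algebraMap L K f) = e * P.ord f) → (BW P ↔ Boundary BX B Q)

/-- **Nonvanishing with one form for log pairs dominated by a product of open varieties.** Let `K` be
the function field of the product `V` of the varieties `X i` with the function fields `F i`, `i < k`,
of dimension `m i`, and of the curve with the function field `F k`, i.e. `K` is the compositum and its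
transcendence degree is `∑ m i + 1`. Let `X° i` be open varieties with the boundaries `BX i` (the
places of `F i` without centre on `X° i`), and let `B` be a finite set of points of the curve. Let
`L ⊆ K` be the function field of a variety `W` such that the extension is finite, and let `W°` be an
open variety with function field `L` and boundary `BW` which is the image of the product of the `X° i`
and the open curve under a proper map. Suppose that for all `i < k` the logarithmic canonical forms of
`X° i` separate `d i` points, where `d i` is the degree over `W_i` of the image of `V` in the product of
`W_i` and `X i`. Then the following are equivalent: the logarithmic geometric genus of `W°` is zero;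
the logarithmic Kodaira dimension of `W°` is `-∞`; the log canonical divisor of `W°` is not
pseudo-effective; `W°` is `A¹`-uniruled. -/
theorem result [Algebra.EssFiniteType ℂ K] (m : Fin k → ℕ)
    (F : Fin (k + 1) → IntermediateField ℂ K) [∀ i, Algebra.EssFiniteType ℂ (F i)]
    [IsFF ℂ (F (Fin.last k))] (hF : ⨆ i, F i = ⊤)
    (hm : ∀ i : Fin k, Algebra.trdeg ℂ (F i.castSucc) = m i)
    (hK : Algebra.trdeg ℂ K = (∑ i, m i + 1 : ℕ))
    (BX : ∀ i : Fin k, Place ℂ (F i.castSucc) → Prop) (B : Set (Place ℂ (F (Fin.last k))))
    (hB : B.Finite) (L : Type) [Field L] [Algebra ℂ L]
    [Algebra L K] [IsScalarTower ℂ L K] [FiniteDimensional L K]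
    (BW : Place ℂ L → Prop) (hBW : IsImageBoundary BX B L BW)
    (hX : ∀ i : Fin k, SeparatesPoints (F i.castSucc) (m i) (BX i) (deg F L i.castSucc)) :
    [LogGenusZero L (∑ i, m i + 1) BW, ¬ KodGe ℂ L (∑ i, m i + 1) BW 0,
      ¬ Psef ℂ L (∑ i, m i + 1) BW, IsA1Uniruled ℂ L (∑ i, m i + 1) BW].TFAE := by
  choose x D hx hD using fun i : Fin k => Pool.Agent.Y172.exists_crd (hm i)
  refine N145.SX.multi_zero (L := L) hF hm hK hx hB (BX := BX) (BL := BW) (fun P Q e h => ?_)
    (g := fun i => deg F L i.castSucc + 1)
    (fun i => N145.SX.sepX_of (hx i) (hD i) fun Ω _ _ _ A hA c hc =>
      hX i (D i) (N145.SX.dual_indep (hD i)) Ω A hA c hc)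
    (fun i => by
      rw [deg_eq]
      exact Nat.lt_succ_self _)
  rw [hBW P Q e h.1 h.2]
  rfl

end Pool.Agent.Results.MP_66b48b_ag.OpenProductsGenusZero
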