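import Pool.Agent.N133.TB.Null

/-!
MP_66b48b_ag, Q1: nonvanishing for log canonical pairs `(X, Δ)` which carry tensor differentials.

`NormalModel y` (`Pool/Agent/Y172/Defs.lean`): `y` is the generic point, in homogeneous coordinates,
of a normal projective variety `X` with function field `K`. `Effective y Δ`: `Δ ≥ 0` is a
`ℚ`-divisor on `X`. `LogCanonical y n Δ`: the pair `(X, Δ)` is log canonical.
`kodairaDim y n Δ`: the Kodaira dimension of `K_X + Δ`, in `{⊥, 0, 1, …}`.

A tensor differential of degree `m` is a `K`-multilinear map `T` with `m` arguments on the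
derivations of `K` over `ℂ` (the rational vector fields). `IsTensor y Δ T`
(`Pool/Agent/N133/TB/Main.lean`): `T` is a (reflexive) tensor differential of the pair, that is, for
every prime divisor `P` of `X`, if the vector fields `D j` are regular along `P` and, for `j` not in
`S`, tangent to `P`, then `T D` has order at least `- |S| Δ P` along `P` (a pole of order `Δ P` is
allowed for each argument transversal to `P`; if `Δ = 0`, these are the sections of the reflexive
hull of the `m`-th tensor power of the sheaf of differentials).

`WtBasis T f w μ` (`Pool/Agent/N133/TB/Can.lean`): the vector fields `f j`, `j < n`, are linearly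
independent over `K`, their weights `w j` are real numbers with `∑ w = 0`, `∑ w ^ 2 = 1`, and all
coefficients `T i (f (J 0), f (J 1), …)` with weight `∑ s, w (J s)` less than `μ` vanish.
`lvl K f w a`: the span of the `f j` with `w j ≤ a`, a distribution (subsheaf of the tangent sheaf).
-/

set_option autoImplicit false

namespace Pool.Agent.Results.MP_66b48b_ag.TensorNonvanishing

open FF Pool.Agent.Y172 Pool.Agent.N133.TB

/-- Let `(X, Δ)` be a log canonical pair of dimension `n ≥ 1`, and let `T i` be finitely many tensor
differentials of the pair of degrees `m i ≥ 1`, not all zero. Then either `κ(K_X + Δ) ≥ 0`, or the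
tensors are unstable over the function field of `X` itself: there is a basis `f` of the rational
vector fields with weights `w`, `∑ w = 0`, `∑ w ^ 2 = 1`, and a number `μ > 0` such that all
coefficients of the `T i` of weight less than `μ` vanish (in particular all `T i` vanish on the
proper nonzero distribution spanned by the `f j` with `w j ≤ 0`); for the largest such `μ` the
filtration of the tangent sheaf by the distributions spanned by the `f j` with `w j ≤ a` is unique. -/
theorem result {K : Type} [Field K] [Algebra ℂ K] {n N : ℕ} {y : Fin (N + 1) → K}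
    (hy : NormalModel y) (hn : Algebra.trdeg ℂ K = n) (hn1 : 1 ≤ n) {Δ : Place ℂ K → ℚ}
    (hΔ : Effective y Δ) (hLC : LogCanonical y n Δ) {ι : Type} [Finite ι] {m : ι → ℕ}
    (hm : ∀ i, 1 ≤ m i) {T : (i : ι) → MultilinearMap K (fun _ : Fin (m i) => Derivation ℂ K K) K}
    (hT : ∀ i, IsTensor y Δ (T i)) (hT0 : ∃ i, T i ≠ 0) :
    (∃ κ : ℕ, kodairaDim y n Δ = (κ : WithBot ℕ)) ∨
    ∃ (f : Fin n → Derivation ℂ K K) (w : Fin n → ℝ) (μ : ℝ), 0 < μ ∧ WtBasis T f w μ ∧
      ∀ (f' : Fin n → Derivation ℂ K K) (w' : Fin n → ℝ) (μ' : ℝ), WtBasis T f' w' μ' →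
        μ' ≤ μ ∧ (μ' = μ → ∀ a, lvl K f' w' a = lvl K f w a) :=
  tb_can hy hn hn1 hΔ hLC hm hT hT0

end Pool.Agent.Results.MP_66b48b_ag.TensorNonvanishing
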